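import Pool.Agent.V11331.FF.Formula

/-!
# MP_a687e6_pr, Q1: the finite free entropy power inequality for discriminants

For all monic real-rooted polynomials `p, q` of degree `d ≥ 2`, with `N = d(d-1)/2`,
`Dis(p ⊞_d q)^{1/N} ≥ Dis(p)^{1/N} + Dis(q)^{1/N}`.

The heart of the proof is an explicit sum-of-squares identity (see
`Pool.Agent.V11331.FF.Key`): if `p = ∏ (x - λ_i)`, `q = ∏ (x - μ_k)`, `r = p ⊞_d q`,
`A_{jk} = (p/(x-λ_j)) ⊞_{d-1} (q/(x-μ_k))` and
`h_{im,kl} = (p/((x-λ_i)(x-λ_m))) ⊞_{d-2} (q/((x-μ_k)(x-μ_l)))`, then with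
`W(f) = f'(x) f(y) - f(x) f'(y)`,
`d^2 W(r) = d (y-x) ∑ A_{jk}(x) A_{jk}(y)
   + (1/(4 (d-1)^2)) ∑_{i,m,k,l} (λ_i-λ_m)^2 (μ_k-μ_l)^2 W(h_{im,kl})`.
It gives at once the real-rootedness of `r` and the finite free Stam inequality; the entropy power
inequality follows with the heat flow `exp(-t D^2)`.
-/

set_option autoImplicit false

namespace Pool.Agent.Results.MP_a687e6_pr.EPI

open Polynomial Finset

/-- The number `a_i` in `p(x) = ∑_{i=0}^d (-1)^i a_i x^{d-i}`. -/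
noncomputable def coeffA (d : ℕ) (p : ℝ[X]) (i : ℕ) : ℝ := (-1) ^ i * p.coeff (d - i)

/-- The finite free additive convolution
`(p ⊞_d q)(x) = ∑_{i=0}^d (-1)^i x^{d-i} ∑_{j+k=i} ((d-j)! (d-k)!/(d! (d-i)!)) a_j b_k`. -/
noncomputable def boxplus (d : ℕ) (p q : ℝ[X]) : ℝ[X] :=
  ∑ i ∈ range (d + 1), C ((-1 : ℝ) ^ i * ∑ jk ∈ antidiagonal i,
    (((d - jk.1).factorial * (d - jk.2).factorial : ℕ) : ℝ)
      / ((d.factorial * (d - i).factorial : ℕ) : ℝ)
      * coeffA d p jk.1 * coeffA d q jk.2) * X ^ (d - i)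

/-- The monic polynomial with roots `lam_1, …, lam_d` (with multiplicity). -/
noncomputable def fromRoots {d : ℕ} (lam : Fin d → ℝ) : ℝ[X] := ∏ i, (X - C (lam i))

/-- The discriminant `∏_{i<j} (lam_i - lam_j)^2`. -/
noncomputable def Dis {d : ℕ} (lam : Fin d → ℝ) : ℝ := ∏ i, ∏ j ∈ Ioi i, (lam i - lam j) ^ 2

/-- **Q1 (finite free entropy power inequality).**  Let `d ≥ 2` and let `p`, `q` be monic of
degree `d` with only real roots `lam`, `mu`.  Then `p ⊞_d q` has only real roots, and for every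
list `nu` of its roots,
`Dis(p)^{1/N} + Dis(q)^{1/N} ≤ Dis(p ⊞_d q)^{1/N}` with `N = d(d-1)/2`. -/
theorem result (d : ℕ) (hd : 2 ≤ d) (p q : ℝ[X]) (lam mu : Fin d → ℝ)
    (hp : p = fromRoots lam) (hq : q = fromRoots mu) :
    (∃ nu : Fin d → ℝ, boxplus d p q = fromRoots nu) ∧
    ∀ nu : Fin d → ℝ, boxplus d p q = fromRoots nu →
      Dis lam ^ (1 / (d.choose 2 : ℝ)) + Dis mu ^ (1 / (d.choose 2 : ℝ))
        ≤ Dis nu ^ (1 / (d.choose 2 : ℝ)) := by
  subst hp hq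
  have hbox : boxplus d (fromRoots lam) (fromRoots mu)
      = Pool.Agent.V11331.FF.box d (fromRoots lam) (fromRoots mu) := by
    have hdl : ∀ m : Fin d → ℝ, (fromRoots m).natDegree ≤ d := by
      intro m
      have := Pool.Agent.V11331.FF.P_natDegree m univ
      rw [Pool.Agent.V11331.FF.card_univ_fin] at this
      exact this.le
    rw [Pool.Agent.V11331.FF.box_formula d _ _ (hdl lam) (hdl mu)]
    rfl
  rw [hbox]
  obtain ⟨n, rfl⟩ : ∃ n, d = n + 2 := ⟨d - 2, by omega⟩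
  constructor
  · exact Pool.Agent.V11331.FF.box_real_rooted (n + 2) lam mu univ univ
      (Pool.Agent.V11331.FF.card_univ_fin _) (Pool.Agent.V11331.FF.card_univ_fin _)
  · intro nu hnu
    exact Pool.Agent.V11331.FF.epi n lam mu nu hnu

end Pool.Agent.Results.MP_a687e6_pr.EPI
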