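import Pool.Agent.V11331.FF.Formula
import Pool.Agent.V11331.FF.Equality

/-!
# MP_a687e6_pr, Q2: equality in the finite free entropy power inequality

If `p, q` are monic real-rooted of degree `d ≥ 2` with simple roots and
`Dis(p ⊞_d q)^{1/N} = Dis(p)^{1/N} + Dis(q)^{1/N}`, then `p` and `q` are generalized Hermite
polynomials `H_d[μ, σ²] = exp(-μ D - σ²/(2(d-1)) D²) x^d`.
-/

set_option autoImplicit false

namespace Pool.Agent.Results.MP_a687e6_pr.EPIEquality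

open Polynomial Finset

/-- The number `a_i` in `p(x) = ∑_{i=0}^d (-1)^i a_i x^{d-i}`. -/
noncomputable def coeffA (d : ℕ) (p : ℝ[X]) (i : ℕ) : ℝ := (-1) ^ i * p.coeff (d - i)

/-- The finite free additive convolution
`(p ⊞_d q)(x) = ∑_{i=0}^d (-1)^i x^{d-i} ∑_{j+k=i} ((d-j)! (d-k)!/(d! (d-i)!)) a_j b_k`. -/
noncomputable def boxplus (d : ℕ) (p q : ℝ[X]) : ℝ[X] :=
  ∑ i ∈ range (d + 1), C ((-1 : ℝ) ^ i * ∑ jk ∈ antidiagonal i,
    (((d - jk.1).factorial * (d - jk.2).factorial : ℕ) : ℝ)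
      / ((d.factorial * (d - i).factorial : ℕ) : ℝ)
      * coeffA d p jk.1 * coeffA d q jk.2) * X ^ (d - i)

/-- The monic polynomial with roots `lam_1, …, lam_d` (with multiplicity). -/
noncomputable def fromRoots {d : ℕ} (lam : Fin d → ℝ) : ℝ[X] := ∏ i, (X - C (lam i))

/-- The discriminant `∏_{i<j} (lam_i - lam_j)^2`. -/
noncomputable def Dis {d : ℕ} (lam : Fin d → ℝ) : ℝ := ∏ i, ∏ j ∈ Ioi i, (lam i - lam j) ^ 2

/-- The generalized Hermite polynomial `exp(-m D - s/(2(d-1)) D²) x^d`, where `D = d/dx` (the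
exponential series applied to `x^d`; its terms of index `k > d` vanish). -/
noncomputable def hermiteH (d : ℕ) (m s : ℝ) : ℝ[X] :=
  (∑ k ∈ range (d + 1), (1 / (k.factorial : ℝ)) •
    ((-m) • (derivative : ℝ[X] →ₗ[ℝ] ℝ[X])
      - (s / (2 * ((d : ℝ) - 1))) • (derivative : ℝ[X] →ₗ[ℝ] ℝ[X]) ^ 2) ^ k) (X ^ d)

/-- **Q2 (equality case).**  Let `d ≥ 2`, let `p`, `q` be monic of degree `d` with only real roots
`lam`, `mu`, all simple (`Dis > 0`), and let `nu` be the roots of `p ⊞_d q`.  If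
`Dis(p ⊞_d q)^{1/N} = Dis(p)^{1/N} + Dis(q)^{1/N}`, `N = d(d-1)/2`, then both `p` and `q` are of
the form `H_d[m, s]` with `m` real and `s ≥ 0`. -/
theorem result (d : ℕ) (hd : 2 ≤ d) (p q : ℝ[X]) (lam mu nu : Fin d → ℝ)
    (hp : p = fromRoots lam) (hq : q = fromRoots mu) (hr : boxplus d p q = fromRoots nu)
    (hlam : 0 < Dis lam) (hmu : 0 < Dis mu)
    (heq : Dis nu ^ (1 / (d.choose 2 : ℝ))
      = Dis lam ^ (1 / (d.choose 2 : ℝ)) + Dis mu ^ (1 / (d.choose 2 : ℝ))) :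
    (∃ m s : ℝ, 0 ≤ s ∧ p = hermiteH d m s) ∧ (∃ m s : ℝ, 0 ≤ s ∧ q = hermiteH d m s) := by
  subst hp hq
  have hbox : boxplus d (fromRoots lam) (fromRoots mu)
      = Pool.Agent.V11331.FF.box d (fromRoots lam) (fromRoots mu) := by
    have hdl : ∀ m : Fin d → ℝ, (fromRoots m).natDegree ≤ d := by
      intro m
      have := Pool.Agent.V11331.FF.P_natDegree m univ
      rw [Pool.Agent.V11331.FF.card_univ_fin] at this
      exact this.le
    rw [Pool.Agent.V11331.FF.box_formula d _ _ (hdl lam) (hdl mu)]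
    rfl
  rw [hbox] at hr
  obtain ⟨n, rfl⟩ : ∃ n, d = n + 2 := ⟨d - 2, by omega⟩
  exact Pool.Agent.V11331.FF.epi_eq n lam mu nu
    (Pool.Agent.V11331.FF.injective_of_dis lam hlam.ne')
    (Pool.Agent.V11331.FF.injective_of_dis mu hmu.ne') hr heq

end Pool.Agent.Results.MP_a687e6_pr.EPIEquality
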